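import Pool.Agent.Lib.MP_fa837f_gt.TS.Iface

/-!
SCH: a continuous function whose second differences are eventually at most `ε h ^ 2` is concave.
-/

set_option autoImplicit false

namespace Pool.Agent.Lib.MP_fa837f_gt.TS.H14

open Set

theorem sch : SchStatement := by
  intro f hf hsec
  refine ⟨convex_univ, fun a _ b _ s t hs ht hst => ?_⟩
  by_contra hcon
  push Not at hcon
  simp only [smul_eq_mul] at hcon
  have hab : a ≠ b := by
    rintro rfl
    have h1 : s * a + t * a = a := by rw [← add_mul, hst, one_mul]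
    rw [h1, ← add_mul, hst, one_mul] at hcon
    exact lt_irrefl _ hcon
  have hd : 0 < (b - a) ^ 2 := by
    have : b - a ≠ 0 := sub_ne_zero.2 hab.symm
    positivity
  have hs1 : s = 1 - t := by linarith
  -- the auxiliary function
  set c : ℝ := ((s * f a + t * f b) - f (s * a + t * b)) / 2 with hc
  have hc0 : 0 < c := by rw [hc]; linarith
  let G : ℝ → ℝ := fun x => f ((1 - x) * a + x * b) - ((1 - x) * f a + x * f b) + c * (x * (1 - x))
  have hG : Continuous G := by fun_prop
  obtain ⟨x, hx, hmin⟩ := isCompact_Icc.exists_isMinOn (s := Icc (0 : ℝ) 1)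
    ⟨0, by norm_num, by norm_num⟩ hG.continuousOn
  have ht1 : t ∈ Icc (0 : ℝ) 1 := ⟨ht, by linarith⟩
  have hGt : G t < 0 := by
    have h1 : t * (1 - t) ≤ 1 := by nlinarith [ht1.1, ht1.2]
    have h2 : c * (t * (1 - t)) ≤ c := by nlinarith
    simp only [G]
    rw [← hs1] at h2 ⊢
    linarith
  have hGx : G x < 0 := lt_of_le_of_lt (hmin ht1) hGt
  have hx0 : 0 < x := by
    rcases lt_or_eq_of_le hx.1 with h | h
    · exact h
    · exfalso
      rw [← h] at hGx
      simp [G] at hGx
  have hx1 : x < 1 := by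
    rcases lt_or_eq_of_le hx.2 with h | h
    · exact h
    · exfalso
      rw [h] at hGx
      simp [G] at hGx
  obtain ⟨δ, hδ, hδ'⟩ := hsec ((1 - x) * a + x * b) (c / (b - a) ^ 2) (by positivity)
  have habs : 0 < |b - a| := abs_pos.2 (sub_ne_zero.2 hab.symm)
  -- the step
  obtain ⟨η, hη0, hη1, hη2, hη3⟩ : ∃ η : ℝ, 0 < η ∧ η ≤ x ∧ η ≤ 1 - x ∧ |b - a| * η < δ := by
    refine ⟨min (min x (1 - x)) (δ / |b - a| / 2), ?_, ?_, ?_, ?_⟩
    · refine lt_min (lt_min hx0 (by linarith)) (by positivity)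
    · exact (min_le_left _ _).trans (min_le_left _ _)
    · exact (min_le_left _ _).trans (min_le_right _ _)
    · calc |b - a| * min (min x (1 - x)) (δ / |b - a| / 2) ≤ |b - a| * (δ / |b - a| / 2) :=
            mul_le_mul_of_nonneg_left (min_le_right _ _) habs.le
        _ = δ / 2 := by field_simp
        _ < δ := by linarith
  have h1 := hmin (show x + η ∈ Icc (0 : ℝ) 1 from ⟨by linarith, by linarith⟩)
  have h2 := hmin (show x - η ∈ Icc (0 : ℝ) 1 from ⟨by linarith, by linarith⟩)
  simp only [mem_ofPred_eq] at h1 h2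
  have h3 := hδ' (|b - a| * η) (by positivity) hη3
  have h4 : f ((1 - x) * a + x * b + |b - a| * η) + f ((1 - x) * a + x * b - |b - a| * η) =
      f ((1 - (x + η)) * a + (x + η) * b) + f ((1 - (x - η)) * a + (x - η) * b) := by
    rcases abs_cases (b - a) with ⟨h, _⟩ | ⟨h, _⟩
    · rw [h]
      congr 2 <;> ring
    · rw [h, add_comm]
      congr 2 <;> ring
  rw [h4] at h3
  have h5 : c / (b - a) ^ 2 * (|b - a| * η) ^ 2 = c * η ^ 2 := by
    rw [mul_pow, sq_abs]
    field_simp
  rw [h5] at h3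
  simp only [G] at h1 h2
  have h6 : 0 < c * η ^ 2 := by positivity
  nlinarith

end Pool.Agent.Lib.MP_fa837f_gt.TS.H14
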